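import Pool.Agent.Lib.MP_ad4d1c_co_h48.ExDefs

set_option autoImplicit false

/-!
# Module C2: cover lemma and sets avoided by plain PV families
-/

namespace Pool.Agent.Lib.MP_ad4d1c_co_h48.Ex

open Finset

theorem TPV.length_pos {b : List ℕ} {T L : Fam} (h : TPV b T L) : 0 < b.length := by
  rcases Nat.eq_zero_or_pos b.length with h0 | h0
  · exfalso
    have hl := h.len 0
    rw [Nat.choose_zero_right] at hl
    have hne : T 0 ++ L 0 ≠ [] := by
      intro he
      have h2 := congrArg List.length he
      rw [List.length_append, hl] at h2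
      simp at h2
    obtain ⟨p, hp⟩ := List.exists_mem_of_ne_nil _ hne
    obtain ⟨-, h1, h2, -⟩ := h.mem 0 p hp
    have hb : b = [] := List.length_eq_zero_iff.1 h0
    subst hb
    have h3 := card_le_card h1
    rw [h2] at h3
    simp at h3
  · exact h0

/-- peaks of a level are pairwise different -/
theorem TPV.nodup_fst {b : List ℕ} {T L : Fam} (h : TPV b T L) (l : ℕ) :
    ((T l ++ L l).map Prod.fst).Nodup := by
  rw [List.Nodup, List.pairwise_map]
  refine List.Pairwise.imp_of_mem ?_ (h.pw l)
  intro p q _ hq hpq he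
  apply hpq
  rw [he]
  exact (h.mem l q hq).1

/-- valleys of a level are pairwise different -/
theorem TPV.nodup_snd {b : List ℕ} {T L : Fam} (h : TPV b T L) (l : ℕ) :
    ((T l ++ L l).map Prod.snd).Nodup := by
  rw [List.Nodup, List.pairwise_map]
  refine List.Pairwise.imp_of_mem ?_ (h.pw l)
  intro p q hp _ hpq he
  apply hpq
  rw [← he]
  exact (h.mem l p hp).1

/-- **Cover lemma.** Every `(l+1)`-subset of the ground set is a peak of level `l` or a valley of
level `l+1`. -/
theorem TPV.cover {b : List ℕ} {T L : Fam} (h : TPV b T L) {l : ℕ} {M : Finset ℕ}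
    (hM : M ⊆ b.toFinset) (hc : M.card = l + 1) :
    (∃ p ∈ T l ++ L l, p.1 = M) ∨ (∃ p ∈ T (l + 1) ++ L (l + 1), p.2 = M) := by
  have hP : ((T l ++ L l).map Prod.fst).toFinset.card = (b.length - 1).choose l := by
    rw [List.toFinset_card_of_nodup (h.nodup_fst l), List.length_map, List.length_append, h.len]
  have hQ : ((T (l + 1) ++ L (l + 1)).map Prod.snd).toFinset.card =
      (b.length - 1).choose (l + 1) := by
    rw [List.toFinset_card_of_nodup (h.nodup_snd (l + 1)), List.length_map, List.length_append,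
      h.len]
  have hd : Disjoint ((T l ++ L l).map Prod.fst).toFinset
      ((T (l + 1) ++ L (l + 1)).map Prod.snd).toFinset := by
    rw [Finset.disjoint_left]
    intro X hX hY
    rw [List.mem_toFinset, List.mem_map] at hX hY
    obtain ⟨p, hp, rfl⟩ := hX
    obtain ⟨q, hq, he⟩ := hY
    exact h.cross l p hp q hq he
  have hsub : ((T l ++ L l).map Prod.fst).toFinset ∪
      ((T (l + 1) ++ L (l + 1)).map Prod.snd).toFinset ⊆ b.toFinset.powersetCard (l + 1) := by
    intro X hX
    rw [mem_powersetCard]
    rcases mem_union.1 hX with hX | hX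
    · rw [List.mem_toFinset, List.mem_map] at hX
      obtain ⟨p, hp, rfl⟩ := hX
      exact ⟨(h.mem l p hp).2.1, (h.mem l p hp).2.2.1⟩
    · rw [List.mem_toFinset, List.mem_map] at hX
      obtain ⟨p, hp, rfl⟩ := hX
      exact ⟨(h.mem (l + 1) p hp).1.trans (h.mem (l + 1) p hp).2.1, (h.mem (l + 1) p hp).2.2.2⟩
  have hcard : (b.toFinset.powersetCard (l + 1)).card ≤
      (((T l ++ L l).map Prod.fst).toFinset ∪
        ((T (l + 1) ++ L (l + 1)).map Prod.snd).toFinset).card := by
    rw [card_powersetCard, card_union_of_disjoint hd, hP, hQ, List.toFinset_card_of_nodup h.nd]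
    obtain ⟨k, hk⟩ : ∃ k, b.length = k + 1 := ⟨b.length - 1, by have := h.length_pos; omega⟩
    rw [hk, Nat.add_sub_cancel, Nat.choose_succ_succ]
  have heq := Finset.eq_of_subset_of_card_le hsub hcard
  have hmem : M ∈ b.toFinset.powersetCard (l + 1) := mem_powersetCard.2 ⟨hM, hc⟩
  rw [← heq] at hmem
  rcases mem_union.1 hmem with hX | hX
  · rw [List.mem_toFinset, List.mem_map] at hX
    exact Or.inl hX
  · rw [List.mem_toFinset, List.mem_map] at hX
    exact Or.inr hX

/-! ## plain families -/

theorem PV.memL {b a : List ℕ} {L : Fam} (h : PV b a L) {l : ℕ} {p : Pr} (hp : p ∈ L l) :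
    p.2 ⊆ p.1 ∧ p.1 ⊆ b.toFinset ∧ p.1.card = l + 1 ∧ p.2.card = l :=
  h.tpv.mem l p (by simpa [nil] using hp)

theorem PV.pwL {b a : List ℕ} {L : Fam} (h : PV b a L) (l : ℕ) :
    (L l).Pairwise (fun p q => ¬ q.2 ⊆ p.1) := by
  simpa [nil] using h.tpv.pw l

theorem PV.crossL {b a : List ℕ} {L : Fam} (h : PV b a L) {l : ℕ} {p q : Pr} (hp : p ∈ L l)
    (hq : q ∈ L (l + 1)) : q.2 ≠ p.1 :=
  h.tpv.cross l p (by simpa [nil] using hp) q (by simpa [nil] using hq)

theorem PV.lenL {b a : List ℕ} {L : Fam} (h : PV b a L) (l : ℕ) :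
    (L l).length = (b.length - 1).choose l := by
  simpa [nil] using h.tpv.len l

theorem PV.nodup_fst {b a : List ℕ} {L : Fam} (h : PV b a L) (l : ℕ) :
    ((L l).map Prod.fst).Nodup := by
  simpa [nil] using h.tpv.nodup_fst l

theorem PV.nodup_snd {b a : List ℕ} {L : Fam} (h : PV b a L) (l : ℕ) :
    ((L l).map Prod.snd).Nodup := by
  simpa [nil] using h.tpv.nodup_snd l

theorem PV.cover {b a : List ℕ} {L : Fam} (h : PV b a L) {l : ℕ} {M : Finset ℕ}
    (hM : M ⊆ b.toFinset) (hc : M.card = l + 1) :
    (∃ p ∈ L l, p.1 = M) ∨ (∃ p ∈ L (l + 1), p.2 = M) := by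
  simpa [nil] using h.tpv.cover hM hc

theorem PV.length_pos {b a : List ℕ} {L : Fam} (h : PV b a L) : 0 < b.length :=
  h.tpv.length_pos

theorem PV.empty {b a : List ℕ} {L : Fam} (h : PV b a L) {l : ℕ} (hl : b.length ≤ l) :
    L l = [] := by
  apply List.eq_nil_of_length_eq_zero
  rw [h.lenL]
  apply Nat.choose_eq_zero_of_lt
  have := h.length_pos
  omega

theorem PV.nonempty {b a : List ℕ} {L : Fam} (h : PV b a L) {l : ℕ} (hl : l < b.length) :
    L l ≠ [] := by
  intro he
  have h1 := h.lenL l
  rw [he] at h1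
  have h2 : 0 < (b.length - 1).choose l := Nat.choose_pos (by omega)
  simp at h1
  omega

/-- equal valleys on a level: same pair -/
theorem PV.eq_of_snd {b a : List ℕ} {L : Fam} (h : PV b a L) {l : ℕ} {i j : ℕ}
    (hi : i < (L l).length) (hj : j < (L l).length) (he : (L l)[i].2 = (L l)[j].2) : i = j := by
  have h1 := (List.nodup_iff_injective_getElem.1 (h.nodup_snd l))
  have h2 : (⟨i, by simpa using hi⟩ : Fin ((L l).map Prod.snd).length) = ⟨j, by simpa using hj⟩ := by
    apply h1
    simpa using he
  simpa using h2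

/-- equal peaks on a level: same pair -/
theorem PV.eq_of_fst {b a : List ℕ} {L : Fam} (h : PV b a L) {l : ℕ} {i j : ℕ}
    (hi : i < (L l).length) (hj : j < (L l).length) (he : (L l)[i].1 = (L l)[j].1) : i = j := by
  have h1 := (List.nodup_iff_injective_getElem.1 (h.nodup_fst l))
  have h2 : (⟨i, by simpa using hi⟩ : Fin ((L l).map Prod.fst).length) = ⟨j, by simpa using hj⟩ := by
    apply h1
    simpa using he
  simpa using h2

theorem PV.chainL {b a : List ℕ} {L : Fam} (h : PV b a L) {l i : ℕ} (hi : i + 1 < (L l).length) :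
    ((L l)[i]'(by omega)).2 ⊆ ((L l)[i + 1]).1 := by
  have h1 := h.tpv.chain l
  rw [List.isChain_iff_getElem] at h1
  exact h1 i hi

/-- a valley which is not the last one is the intersection of the two neighbouring peaks -/
theorem PV.valley_eq {b a : List ℕ} {L : Fam} (h : PV b a L) {l i : ℕ}
    (hi : i + 1 < (L l).length) :
    ((L l)[i]'(by omega)).2 = ((L l)[i]'(by omega)).1 ∩ ((L l)[i + 1]).1 := by
  have hm := h.memL (List.getElem_mem (show i < (L l).length by omega))
  have hm' := h.memL (List.getElem_mem hi)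
  apply Finset.eq_of_subset_of_card_le (subset_inter hm.1 (h.chainL hi))
  rw [hm.2.2.2]
  have hne : ((L l)[i]'(by omega)).1 ≠ ((L l)[i + 1]).1 := by
    intro he
    have := h.eq_of_fst _ _ he
    omega
  by_contra hlt
  push Not at hlt
  have h1 : ((L l)[i]'(by omega)).1 ∩ ((L l)[i + 1]).1 = ((L l)[i]'(by omega)).1 := by
    apply Finset.eq_of_subset_of_card_le inter_subset_left
    rw [hm.2.2.1]
    omega
  have h2 : ((L l)[i]'(by omega)).1 ∩ ((L l)[i + 1]).1 = ((L l)[i + 1]).1 := by
    apply Finset.eq_of_subset_of_card_le inter_subset_right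
    rw [hm'.2.2.1]
    omega
  exact hne (h1.symm.trans h2)

theorem PV.last_snd {b a : List ℕ} {L : Fam} (h : PV b a L) {l i : ℕ}
    (hi : i + 1 = (L l).length) :
    ((L l)[i]'(by omega)).2 = (a.take l).toFinset := by
  have hi' : i < (L l).length := by omega
  apply h.ends l
  rw [Option.mem_def, List.getLast?_eq_getElem?, show (L l).length - 1 = i by omega,
    List.getElem?_eq_getElem hi']

theorem PV.head_fst {b a : List ℕ} {L : Fam} (h : PV b a L) {l : ℕ}
    (hl : 0 < (L l).length) :
    ((L l)[0]).1 = (b.take (l + 1)).toFinset := by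
  apply h.tpv.head l
  rw [Option.mem_def, List.head?_eq_getElem?]
  simp [hl]

/-- a plain family never visits a start segment -/
theorem PV.avoid_head {b a : List ℕ} {L : Fam} (h : PV b a L) (l : ℕ) :
    Avoid L (b.take (l + 1)).toFinset := by
  intro l' p hp he
  have hc := (h.memL hp).2.2.2
  have hnd : (b.take (l + 1)).Nodup := h.tpv.nd.sublist (List.take_sublist _ _)
  rw [he, List.toFinset_card_of_nodup hnd, List.length_take] at hc
  have hlt : l' < b.length := by
    by_contra hge
    rw [h.empty (by omega)] at hp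
    simp at hp
  have hl' : l' = l + 1 := by omega
  subst hl'
  have h0 : 0 < (L l).length := List.length_pos_iff.2 (h.nonempty (by omega))
  exact h.crossL (List.getElem_mem h0) hp (he.trans (h.head_fst h0).symm)

theorem PV.perm_toFinset {b a : List ℕ} {L : Fam} (h : PV b a L) : a.toFinset = b.toFinset :=
  List.toFinset_eq_of_perm _ _ h.perm

theorem PV.top_valley {b a0 : List ℕ} {v : ℕ} {L : Fam} (h : PV b (a0 ++ [v]) L) {p : Pr}
    (hp : p ∈ L a0.length) : p.2 = a0.toFinset := by
  have hlen : b.length = a0.length + 1 := by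
    rw [← h.perm.length_eq]
    simp
  have h1 : (L a0.length).length = 1 := by
    rw [h.lenL, hlen]
    simp
  obtain ⟨i, hi, rfl⟩ := List.getElem_of_mem hp
  rw [h.last_snd (by omega)]
  simp

/-- G0: the only valley `S \ {x}` is the last one -/
theorem PV.avoid_top {b a0 : List ℕ} {v : ℕ} {L : Fam} (h : PV b (a0 ++ [v]) L) {x : ℕ}
    (hxv : x ≠ v) : Avoid L (b.toFinset \ {x}) := by
  intro l p hp he
  have hc := (h.memL hp).2.2.2
  have hlen : b.length = a0.length + 1 := by
    rw [← h.perm.length_eq]
    simp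
  have hlt : l < b.length := by
    by_contra hge
    rw [h.empty (by omega)] at hp
    simp at hp
  have hxb : x ∈ b := by
    by_contra hx
    rw [he, Finset.sdiff_singleton_eq_erase, Finset.erase_eq_of_notMem (by simpa using hx),
      List.toFinset_card_of_nodup h.tpv.nd] at hc
    omega
  have hl : l = a0.length := by
    rw [he, Finset.sdiff_singleton_eq_erase, Finset.card_erase_of_mem (by simpa using hxb),
      List.toFinset_card_of_nodup h.tpv.nd] at hc
    omega
  subst hl
  have h1 := h.top_valley hp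
  have hx0 : x ∈ a0 := by
    have : x ∈ a0 ++ [v] := h.perm.mem_iff.2 hxb
    simpa [hxv] using this
  have h2 : x ∈ p.2 := by
    rw [h1]
    simpa using hx0
  rw [he] at h2
  simp at h2

theorem PV.nodup_end {b a : List ℕ} {L : Fam} (h : PV b a L) : a.Nodup :=
  h.perm.nodup_iff.2 h.tpv.nd

/-- no peak of size `s-1` misses the last element of the end order -/
theorem PV.top_peak {b a0 : List ℕ} {v : ℕ} {L : Fam} (h : PV b (a0 ++ [v]) L) {l : ℕ}
    (hl : l + 1 = a0.length) {p : Pr} (hp : p ∈ L l) : v ∈ p.1 := by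
  by_contra hv
  have hm := h.memL hp
  have hlen : b.length = a0.length + 1 := by
    rw [← h.perm.length_eq]
    simp
  have hvb : v ∈ b := h.perm.mem_iff.1 (by simp)
  have hva : v ∉ a0 := by
    have := h.nodup_end
    rw [List.nodup_append] at this
    intro hv0
    exact this.2.2 v hv0 v (by simp) rfl
  have h1 : p.1 = a0.toFinset := by
    apply Finset.eq_of_subset_of_card_le
    · intro x hx
      have hxb : x ∈ b := by simpa using hm.2.1 hx
      have hxa : x ∈ a0 ++ [v] := h.perm.mem_iff.2 hxb
      have hxv : x ≠ v := fun hxv => hv (hxv ▸ hx)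
      simpa [hxv] using hxa
    · rw [hm.2.2.1, hl]
      exact List.toFinset_card_le _
  have hne := h.nonempty (l := l + 1) (by omega)
  obtain ⟨q, hq⟩ := List.exists_mem_of_ne_nil _ hne
  refine h.crossL hp hq ?_
  rw [h1]
  rw [hl] at hq
  exact h.top_valley hq

theorem mem_of_sdiff_pair {S : Finset ℕ} {x y z : ℕ} (hz : z ∈ S) (hzx : z ≠ x) (hzy : z ≠ y) :
    z ∈ S \ {x, y} := by
  simp [hz, hzx, hzy]

/-- a valley of level `s-2` missing `v` is the last one -/
theorem PV.second_top {b a0 : List ℕ} {u v : ℕ} {L : Fam} (h : PV b (a0 ++ [u, v]) L) {i : ℕ}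
    (hi : i < (L a0.length).length) (hv : v ∉ (L a0.length)[i].2) :
    i + 1 = (L a0.length).length := by
  by_contra hne
  have hi' : i + 1 < (L a0.length).length := by omega
  have h' : PV b ((a0 ++ [u]) ++ [v]) L := by simpa using h
  apply hv
  rw [h.valley_eq hi', mem_inter]
  exact ⟨h'.top_peak (by simp) (List.getElem_mem _), h'.top_peak (by simp) (List.getElem_mem _)⟩

theorem PV.level_of_sdiff {b a0 : List ℕ} {u v : ℕ} {L : Fam} (h : PV b (a0 ++ [u, v]) L)
    {x y : ℕ} (hx : x ∈ b) (hy : y ∈ b) (hxy : x ≠ y) {l : ℕ} {p : Pr} (hp : p ∈ L l)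
    (he : p.2 = b.toFinset \ {x, y}) : l = a0.length := by
  have hlen : b.length = a0.length + 2 := by
    rw [← h.perm.length_eq]
    simp
  have hc := (h.memL hp).2.2.2
  rw [he, Finset.card_sdiff_of_subset (by
    intro z hz
    simp only [mem_insert, mem_singleton] at hz
    rcases hz with rfl | rfl
    · simpa using hx
    · simpa using hy), List.toFinset_card_of_nodup h.tpv.nd, Finset.card_pair hxy] at hc
  omega

/-- G1 -/
theorem PV.avoid_top1 {b a0 : List ℕ} {u v : ℕ} {L : Fam} (h : PV b (a0 ++ [u, v]) L) {x : ℕ}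
    (hx : x ∈ b) (hxu : x ≠ u) (hxv : x ≠ v) : Avoid L (b.toFinset \ {x, v}) := by
  intro l p hp he
  have hvb : v ∈ b := h.perm.mem_iff.1 (by simp)
  have hl := h.level_of_sdiff hx hvb hxv hp he
  subst hl
  obtain ⟨i, hi, rfl⟩ := List.getElem_of_mem hp
  have hlast := h.second_top hi (by rw [he]; simp)
  have h1 := h.last_snd hlast
  rw [he] at h1
  have hx0 : x ∈ a0 := by
    have : x ∈ a0 ++ [u, v] := h.perm.mem_iff.2 hx
    simpa [hxu, hxv] using this
  have h2 : x ∈ ((a0 ++ [u, v]).take a0.length).toFinset := by simpa using hx0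
  rw [← h1] at h2
  simp at h2

/-- the last peak of level `s-2` is `S \ {u}` -/
theorem PV.last_peak {b a0 : List ℕ} {u v : ℕ} {L : Fam} (h : PV b (a0 ++ [u, v]) L) {i : ℕ}
    (hi : i < (L a0.length).length) (hu : u ∉ (L a0.length)[i].1) :
    i + 1 = (L a0.length).length := by
  have hlen : b.length = a0.length + 2 := by
    rw [← h.perm.length_eq]
    simp
  have hub : u ∈ b := h.perm.mem_iff.1 (by simp)
  have hvb : v ∈ b := h.perm.mem_iff.1 (by simp)
  have hnd := h.nodup_end
  have huv : u ≠ v := by
    rw [List.nodup_append] at hnd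
    simpa using hnd.2.1
  have hva : v ∉ a0 := by
    rw [List.nodup_append] at hnd
    intro hv0
    exact hnd.2.2 v hv0 v (by simp) rfl
  -- every peak missing `u` equals `S \ {u}`
  have key : ∀ (q : Pr), q ∈ L a0.length → u ∉ q.1 → q.1 = b.toFinset.erase u := by
    intro q hq huq
    have hm := h.memL hq
    apply Finset.eq_of_subset_of_card_le
    · intro z hz
      rw [mem_erase]
      exact ⟨fun hzu => huq (hzu ▸ hz), hm.2.1 hz⟩
    · rw [hm.2.2.1, Finset.card_erase_of_mem (by simpa using hub),
        List.toFinset_card_of_nodup h.tpv.nd]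
      omega
  -- the last peak misses `u`
  have hpos : 0 < (L a0.length).length := by omega
  obtain ⟨m, hm⟩ : ∃ m, m + 1 = (L a0.length).length := ⟨(L a0.length).length - 1, by omega⟩
  have hm' : m < (L a0.length).length := by omega
  have hmm := h.memL (List.getElem_mem hm')
  have hlv := h.last_snd hm
  have hulast : u ∉ ((L a0.length)[m]).1 := by
    intro hu1
    have h' : PV b ((a0 ++ [u]) ++ [v]) L := by simpa using h
    have hv1 : v ∈ ((L a0.length)[m]).1 := h'.top_peak (by simp) (List.getElem_mem _)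
    have hsub : a0.toFinset ∪ {u, v} ⊆ ((L a0.length)[m]).1 := by
      apply union_subset
      · have := hmm.1
        rw [hlv] at this
        simpa using this
      · intro z hz
        simp only [mem_insert, mem_singleton] at hz
        rcases hz with rfl | rfl
        · exact hu1
        · exact hv1
    have hc := card_le_card hsub
    have hall : a0.toFinset ∪ {u, v} = b.toFinset := by
      rw [← h.perm_toFinset]
      ext z
      simp
    rw [hall, List.toFinset_card_of_nodup h.tpv.nd, hmm.2.2.1] at hc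
    omega
  have h3 : i = m := by
    apply h.eq_of_fst hi hm'
    rw [key _ (List.getElem_mem hi) hu, key _ (List.getElem_mem hm') hulast]
  omega

/-- G2 -/
theorem PV.avoid_top2 {b a0 : List ℕ} {t u v : ℕ} {L : Fam} (h : PV b (a0 ++ [t, u, v]) L) {x : ℕ}
    (hx : x ∈ b) (hxt : x ≠ t) (hxu : x ≠ u) (hxv : x ≠ v) : Avoid L (b.toFinset \ {x, u}) := by
  intro l p hp he
  have h' : PV b ((a0 ++ [t]) ++ [u, v]) L := by simpa using h
  have hlen : b.length = a0.length + 3 := by
    rw [← h.perm.length_eq]
    simp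
  have htb : t ∈ b := h.perm.mem_iff.1 (by simp)
  have hub : u ∈ b := h.perm.mem_iff.1 (by simp)
  have hvb : v ∈ b := h.perm.mem_iff.1 (by simp)
  have hnd := h.nodup_end
  have hnd3 : [t, u, v].Nodup := by
    rw [List.nodup_append] at hnd
    exact hnd.2.1
  have htu : t ≠ u := by
    simp at hnd3
    tauto
  have htv : t ≠ v := by
    simp at hnd3
    tauto
  have huv : u ≠ v := by
    simp at hnd3
    tauto
  have hl := h'.level_of_sdiff hx hub hxu hp he
  subst hl
  -- a valley missing `u` and containing `v` is the second last one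
  have key : ∀ i (hi : i < (L (a0 ++ [t]).length).length),
      u ∉ ((L (a0 ++ [t]).length)[i]).2 → v ∈ ((L (a0 ++ [t]).length)[i]).2 →
      i + 2 = (L (a0 ++ [t]).length).length := by
    intro i hi hui hvi
    have hnl : i + 1 ≠ (L (a0 ++ [t]).length).length := by
      intro hlast
      have h1 := h'.last_snd hlast
      rw [h1, List.take_left, List.mem_toFinset] at hvi
      have h2 : v ∈ a0 ++ [t] := hvi
      have hnd' := h'.nodup_end
      rw [List.nodup_append] at hnd'
      exact hnd'.2.2 v h2 v (by simp) rfl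
    have hi' : i + 1 < (L (a0 ++ [t]).length).length := by omega
    rw [h'.valley_eq hi', mem_inter, not_and_or] at hui
    rcases hui with hui | hui
    · exact absurd (h'.last_peak hi hui) hnl
    · have := h'.last_peak hi' hui
      omega
  obtain ⟨i, hi, rfl⟩ := List.getElem_of_mem hp
  have hi2 := key i hi (by rw [he]; simp) (by
    rw [he]
    exact mem_of_sdiff_pair (by simpa using hvb) hxv.symm huv.symm)
  -- `S \ {t,u}` is a valley of the same level
  have hex : ∃ q ∈ L (a0 ++ [t]).length, q.2 = b.toFinset \ {t, u} := by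
    -- the last valley of level `s - 3` is `W = S \ {t,u,v}`
    have hpos : 0 < (L a0.length).length :=
      List.length_pos_iff.2 (h.nonempty (l := a0.length) (by omega))
    obtain ⟨m, hm⟩ : ∃ m, m + 1 = (L a0.length).length := ⟨(L a0.length).length - 1, by omega⟩
    have hm' : m < (L a0.length).length := by omega
    have hmm := h.memL (List.getElem_mem hm')
    have hW := h.last_snd hm
    have hW' : (L a0.length)[m].2 = a0.toFinset := by
      rw [hW]
      simp
    -- a peak of level `s-3` containing `W` is the last one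
    have hpk : ∀ q ∈ L a0.length, a0.toFinset ⊆ q.1 → q.1 = (L a0.length)[m].1 := by
      intro q hq hsub
      obtain ⟨j, hj, rfl⟩ := List.getElem_of_mem hq
      by_cases hjm : j = m
      · subst hjm
        rfl
      · exfalso
        have hjm' : j < m := by omega
        have hpw := h.pwL a0.length
        rw [List.pairwise_iff_getElem] at hpw
        exact hpw j m hj hm' hjm' (by rw [hW']; exact hsub)
    have hcard : ∀ {y z : ℕ}, y ∈ b → z ∈ b → y ≠ z → (b.toFinset \ {y, z}).card = a0.length + 1 := by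
      intro y z hy hz hyz
      rw [Finset.card_sdiff_of_subset (by
        intro w hw
        simp only [mem_insert, mem_singleton] at hw
        rcases hw with rfl | rfl
        · simpa using hy
        · simpa using hz), List.toFinset_card_of_nodup h.tpv.nd, Finset.card_pair hyz]
      omega
    have hWsub : ∀ {y z : ℕ}, y ∈ ({t, u, v} : Finset ℕ) → z ∈ ({t, u, v} : Finset ℕ) →
        a0.toFinset ⊆ b.toFinset \ {y, z} := by
      intro y z hy hz w hw
      have hw0 : w ∈ a0 := by simpa using hw
      have hwb : w ∈ b := h.perm.mem_iff.1 (by simp [hw0])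
      have hnot : ∀ r ∈ ({t, u, v} : Finset ℕ), w ≠ r := by
        intro r hr hwr
        subst hwr
        rw [List.nodup_append] at hnd
        exact hnd.2.2 w hw0 w (by simpa using hr) rfl
      exact mem_of_sdiff_pair (by simpa using hwb) (hnot y hy) (hnot z hz)
    have hlevel : (a0 ++ [t]).length = a0.length + 1 := by simp
    rw [hlevel]
    -- `S \ {t,v}` is no valley of level `s-2`
    have htv' : ∃ q ∈ L a0.length, q.1 = b.toFinset \ {t, v} := by
      rcases h.cover (M := b.toFinset \ {t, v}) (l := a0.length) sdiff_subset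
        (hcard htb hvb htv) with hc | hc
      · exact hc
      · obtain ⟨q, hq, hqe⟩ := hc
        exact absurd hqe (h'.avoid_top1 htb htu htv _ q hq)
    rcases h.cover (M := b.toFinset \ {t, u}) (l := a0.length) sdiff_subset
        (hcard htb hub htu) with hc | hc
    · exfalso
      obtain ⟨q, hq, hqe⟩ := hc
      obtain ⟨q', hq', hqe'⟩ := htv'
      have h1 := hpk q hq (by rw [hqe]; exact hWsub (by simp) (by simp))
      have h2 := hpk q' hq' (by rw [hqe']; exact hWsub (by simp) (by simp))
      have h3 : b.toFinset \ {t, u} = b.toFinset \ {t, v} := by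
        rw [← hqe, ← hqe', h1, h2]
      have h4 : v ∈ b.toFinset \ {t, u} := mem_of_sdiff_pair (by simpa using hvb) htv.symm huv.symm
      rw [h3] at h4
      simp at h4
    · exact hc
  obtain ⟨q, hq, hqe⟩ := hex
  obtain ⟨j, hj, rfl⟩ := List.getElem_of_mem hq
  have hj2 := key j hj (by rw [hqe]; simp) (by
    rw [hqe]
    exact mem_of_sdiff_pair (by simpa using hvb) htv.symm huv.symm)
  have hij : i = j := by omega
  subst hij
  have h5 : t ∈ b.toFinset \ {x, u} := mem_of_sdiff_pair (by simpa using htb) hxt.symm htu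
  rw [← he, hqe] at h5
  simp at h5

/-! ## level 1 and 2 -/

theorem PV.start_nodup3 {b1 b2 b3 : ℕ} {b' a : List ℕ} {L : Fam}
    (h : PV (b1 :: b2 :: b3 :: b') a L) : b1 ≠ b2 ∧ b1 ≠ b3 ∧ b2 ≠ b3 := by
  have := h.tpv.nd
  simp at this
  tauto

/-- level 0 is the single pair `({b₁}, ∅)` -/
theorem PV.level0 {b1 : ℕ} {b' a : List ℕ} {L : Fam} (h : PV (b1 :: b') a L) :
    L 0 = [({b1}, ∅)] := by
  have h1 : (L 0).length = 1 := by
    rw [h.lenL]
    simp
  obtain ⟨p, hp⟩ := List.length_eq_one_iff.1 h1
  have hm := h.memL (l := 0) (p := p) (by simp [hp])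
  have hh := h.head_fst (l := 0) (by omega)
  have h2 : p.1 = {b1} := by
    simpa [hp] using hh
  have h3 : p.2 = ∅ := card_eq_zero.1 hm.2.2.2
  rw [hp]
  congr 1
  exact Prod.ext h2 h3

/-- no valley of level 1 is `{b₁}` -/
theorem PV.level1_valley {b1 : ℕ} {b' a : List ℕ} {L : Fam} (h : PV (b1 :: b') a L) {p : Pr}
    (hp : p ∈ L 1) : b1 ∉ p.2 := by
  intro hb
  have hm := h.memL hp
  have h1 : p.2 = {b1} := by
    obtain ⟨c, hc⟩ := card_eq_one.1 hm.2.2.2
    rw [hc] at hb ⊢
    rw [mem_singleton] at hb
    rw [hb]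
  exact h.crossL (l := 0) (p := ({b1}, ∅)) (by simp [h.level0]) hp h1

/-- the first pair of level 1 is `({b₁,b₂},{b₂})` -/
theorem PV.level1_first {b1 b2 : ℕ} {b' a : List ℕ} {L : Fam} (h : PV (b1 :: b2 :: b') a L)
    (hl : 0 < (L 1).length) : (L 1)[0] = ({b1, b2}, {b2}) := by
  have hm := h.memL (List.getElem_mem hl)
  have hh := h.head_fst hl
  have h1 : ((L 1)[0]).1 = {b1, b2} := by
    rw [hh]
    simp
  have hb1 := h.level1_valley (List.getElem_mem hl)
  have h2 : ((L 1)[0]).2 = {b2} := by
    apply Finset.eq_of_subset_of_card_le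
    · intro z hz
      have hz1 := hm.1 hz
      rw [h1] at hz1
      simp only [mem_insert, mem_singleton] at hz1 ⊢
      rcases hz1 with rfl | rfl
      · exact absurd hz hb1
      · rfl
    · rw [hm.2.2.2]
      simp
  exact Prod.ext h1 h2

/-- `b₁` lies in no peak of level 1 other than the first one -/
theorem PV.level1_peak {b1 b2 : ℕ} {b' a : List ℕ} {L : Fam} (h : PV (b1 :: b2 :: b') a L) {i : ℕ}
    (hi : i + 1 < (L 1).length) :
    ((L 1)[i + 1]).1 = ((L 1)[i]'(by omega)).2 ∪ ((L 1)[i + 1]).2 ∧ b1 ∉ ((L 1)[i + 1]).1 := by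
  have hm := h.memL (List.getElem_mem hi)
  have hm0 := h.memL (List.getElem_mem (show i < (L 1).length by omega))
  have h1 : ((L 1)[i + 1]).1 = ((L 1)[i]'(by omega)).2 ∪ ((L 1)[i + 1]).2 := by
    symm
    apply Finset.eq_of_subset_of_card_le (union_subset (h.chainL hi) hm.1)
    rw [hm.2.2.1]
    have hne : ((L 1)[i]'(by omega)).2 ≠ ((L 1)[i + 1]).2 := by
      intro he
      have := h.eq_of_snd _ _ he
      omega
    obtain ⟨c, hc⟩ := card_eq_one.1 hm.2.2.2
    obtain ⟨d, hd⟩ := card_eq_one.1 hm0.2.2.2
    rw [hc, hd] at hne ⊢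
    have hcd : d ≠ c := by
      intro hcd
      exact hne (by rw [hcd])
    rw [card_union_of_disjoint (by simpa using hcd)]
    simp
  refine ⟨h1, ?_⟩
  rw [h1, mem_union, not_or]
  exact ⟨h.level1_valley (List.getElem_mem _), h.level1_valley (List.getElem_mem _)⟩

/-- H2 -/
theorem PV.avoid_h2 {b1 b2 b3 : ℕ} {b' a : List ℕ} {L : Fam} (h : PV (b1 :: b2 :: b3 :: b') a L) :
    Avoid L {b2, b3} := by
  obtain ⟨h12, h13, h23⟩ := h.start_nodup3
  intro l p hp he
  have hc := (h.memL hp).2.2.2
  rw [he, card_pair h23] at hc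
  subst hc
  -- `{b1,b3}` is no peak of level 1
  have hnp : ¬ ∃ q ∈ L 1, q.1 = {b1, b3} := by
    rintro ⟨q, hq, hqe⟩
    obtain ⟨i, hi, rfl⟩ := List.getElem_of_mem hq
    rcases i with _ | i
    · rw [h.level1_first hi] at hqe
      have : b2 ∈ ({b1, b3} : Finset ℕ) := by
        rw [← hqe]
        simp
      simp only [mem_insert, mem_singleton] at this
      rcases this with h0 | h0
      · exact h12 h0.symm
      · exact h23 h0
    · exact (h.level1_peak hi).2 (by rw [hqe]; simp)
  have hv : ∃ q ∈ L 2, q.2 = {b1, b3} := by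
    rcases h.cover (M := {b1, b3}) (l := 1) (by
      intro z hz
      simp only [mem_insert, mem_singleton] at hz
      rcases hz with rfl | rfl <;> simp) (card_pair h13) with hc | hc
    · exact absurd hc hnp
    · exact hc
  -- a valley of level 2 inside `{b1,b2,b3}` belongs to the first pair
  have hpos : 0 < (L 2).length := List.length_pos_iff.2 (h.nonempty (by simp))
  have hfirst : ∀ q ∈ L 2, q.2 ⊆ {b1, b2, b3} → q = (L 2)[0] := by
    intro q hq hsub
    obtain ⟨i, hi, rfl⟩ := List.getElem_of_mem hq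
    rcases i with _ | i
    · rfl
    · exfalso
      have hpw := h.pwL 2
      rw [List.pairwise_iff_getElem] at hpw
      apply hpw 0 (i + 1) hpos hi (by omega)
      rw [h.head_fst hpos]
      intro z hz
      have := hsub hz
      simpa using this
  obtain ⟨q, hq, hqe⟩ := hv
  have e1 := hfirst q hq (by
    rw [hqe]
    intro z hz
    simp only [mem_insert, mem_singleton] at hz ⊢
    tauto)
  have e2 := hfirst p hp (by
    rw [he]
    intro z hz
    simp only [mem_insert, mem_singleton] at hz ⊢
    tauto)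
  rw [e1] at hqe
  rw [e2, hqe] at he
  have : b1 ∈ ({b2, b3} : Finset ℕ) := by
    rw [← he]
    simp
  simp only [mem_insert, mem_singleton] at this
  rcases this with h0 | h0
  · exact h12 h0
  · exact h13 h0

/-- level 1 starts with `({b₁,b₂},{b₂}), ({b₂,b₃}, _)` -/
theorem PV.level1_second {b1 b2 b3 : ℕ} {b' a : List ℕ} {L : Fam}
    (h : PV (b1 :: b2 :: b3 :: b') a L) :
    ∃ q t, L 1 = ({b1, b2}, {b2}) :: q :: t ∧ q.1 = {b2, b3} := by
  obtain ⟨h12, h13, h23⟩ := h.start_nodup3
  have hlen : (L 1).length = b'.length + 2 := by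
    rw [h.lenL]
    simp
  -- `{b2,b3}` is a peak of level 1
  have hp : ∃ q ∈ L 1, q.1 = {b2, b3} := by
    rcases h.cover (M := {b2, b3}) (l := 1) (by
      intro z hz
      simp only [mem_insert, mem_singleton] at hz
      rcases hz with rfl | rfl <;> simp) (card_pair h23) with hc | hc
    · exact hc
    · obtain ⟨q, hq, hqe⟩ := hc
      exact absurd hqe (h.avoid_h2 _ q hq)
  obtain ⟨q, hq, hqe⟩ := hp
  obtain ⟨i, hi, rfl⟩ := List.getElem_of_mem hq
  have hpos : 0 < (L 1).length := by omega
  have h0 := h.level1_first hpos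
  rcases i with _ | i
  · exfalso
    rw [h0] at hqe
    have : b1 ∈ ({b2, b3} : Finset ℕ) := by
      rw [← hqe]
      simp
    simp only [mem_insert, mem_singleton] at this
    rcases this with h0 | h0
    · exact h12 h0
    · exact h13 h0
  · have hu := (h.level1_peak hi).1
    -- `b2` occurs in valley `i` or `i+1`, so the index is `0`
    have hb2 : b2 ∈ ((L 1)[i]'(by omega)).2 ∪ ((L 1)[i + 1]).2 := by
      rw [← hu, hqe]
      simp
    have hsingle : ∀ j (hj : j < (L 1).length), b2 ∈ ((L 1)[j]).2 → j = 0 := by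
      intro j hj hbj
      apply h.eq_of_snd hj hpos
      rw [h0]
      have hm := h.memL (List.getElem_mem hj)
      obtain ⟨c, hc⟩ := card_eq_one.1 hm.2.2.2
      rw [hc] at hbj ⊢
      rw [mem_singleton] at hbj
      rw [hbj]
    have hi0 : i = 0 := by
      rcases mem_union.1 hb2 with hb | hb
      · exact hsingle i (by omega) hb
      · have := hsingle (i + 1) hi hb
        omega
    subst hi0
    have hL : L 1 = (L 1)[0] :: (L 1)[0 + 1] :: (L 1).drop 2 := by
      rw [← List.drop_eq_getElem_cons, ← List.drop_eq_getElem_cons]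
      · simp
    refine ⟨(L 1)[0 + 1], (L 1).drop 2, ?_, hqe⟩
    rw [← h0]
    exact hL

end Pool.Agent.Lib.MP_ad4d1c_co_h48.Ex
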